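import Pool.Agent.Helper869_BG.Random

/-!
# A lower bound `(4/3) log₂(1/α) - 6 log₂ log₂(1/α) - 200` in the Bogolyubov problem over `𝔽₂`
-/

namespace Pool.Agent.Results.MP_68cffc_co.FourThirds

open Finset Pool.Agent.Helper869_BG

/-- The set `2A - 2A`. -/
def TwoTwo {n : ℕ} (A : Finset (Fin n → ZMod 2)) : Set (Fin n → ZMod 2) :=
  {x | ∃ a ∈ A, ∃ b ∈ A, ∃ c ∈ A, ∃ d ∈ A, x = a + b - c - d}

/-- The property of `k` in the definition of `f(α)`: for every `n ≥ 1` and every `A ⊆ 𝔽₂ⁿ` of density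
at least `α`, the set `2A - 2A` contains a linear subspace of codimension at most `k`. -/
def HasBound (α : ℝ) (k : ℕ) : Prop :=
  ∀ n : ℕ, 1 ≤ n → ∀ A : Finset (Fin n → ZMod 2), α * 2 ^ n ≤ (A.card : ℝ) →
    ∃ W : Submodule (ZMod 2) (Fin n → ZMod 2), n ≤ Module.finrank (ZMod 2) W + k ∧
      (W : Set (Fin n → ZMod 2)) ⊆ TwoTwo A

theorem step {V ι : Type*} [AddCommGroup V] [Module (ZMod 2) V] [DecidableEq ι] (a : ι → V)
    (q : ℕ) (v : V) (h : ∃ s : Finset ι, s.card ≤ q ∧ ∑ i ∈ s, a i = v) (i : ι) :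
    ∃ s : Finset ι, s.card ≤ q + 1 ∧ ∑ i ∈ s, a i = v + a i := by
  obtain ⟨s, hs, hsum⟩ := h
  by_cases hi : i ∈ s
  · refine ⟨s.erase i, ?_, ?_⟩
    · have := card_erase_le (s := s) (a := i)
      omega
    · have h1 := sum_erase_add s a hi
      rw [hsum] at h1
      rw [← h1, add_assoc, ZModModule.add_self, add_zero]
  · refine ⟨insert i s, ?_, ?_⟩
    · rw [card_insert_of_notMem hi]; omega
    · rw [sum_insert hi, hsum, add_comm]

theorem fourRep {V ι : Type*} [AddCommGroup V] [Module (ZMod 2) V] [DecidableEq ι] (a : ι → V)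
    (i j k l : ι) : ∃ s : Finset ι, s.card ≤ 4 ∧ ∑ x ∈ s, a x = a i + a j - a k - a l := by
  have h0 : ∃ s : Finset ι, s.card ≤ 0 ∧ ∑ x ∈ s, a x = 0 := ⟨∅, by simp, by simp⟩
  have h4 := step a 3 _ (step a 2 _ (step a 1 _ (step a 0 _ h0 i) j) k) l
  obtain ⟨s, hs, hsum⟩ := h4
  refine ⟨s, hs, ?_⟩
  rw [hsum, ZModModule.sub_eq_add, ZModModule.sub_eq_add, zero_add]

theorem bad_of_subspace {m d : ℕ} {ι : Type*} [Fintype ι] [DecidableEq ι]
    (a : ι → (Fin m → ZMod 2)) (W : Submodule (ZMod 2) (Fin m → ZMod 2))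
    (hd : d ≤ Module.finrank (ZMod 2) W)
    (hW : (W : Set (Fin m → ZMod 2)) ⊆ TwoTwo (univ.image a)) : Bad d a := by
  classical
  set B := Module.finBasis (ZMod 2) W with hB
  have hli : LinearIndependent (ZMod 2) (fun j : Fin d => ((B (Fin.castLE hd j) : W) :
      Fin m → ZMod 2)) := by
    have h1 : LinearIndependent (ZMod 2) (fun j : Fin d => B (Fin.castLE hd j)) :=
      B.linearIndependent.comp _ (Fin.castLE_injective hd)
    exact h1.map' W.subtype (Submodule.ker_subtype W)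
  refine ⟨fun j => ((B (Fin.castLE hd j) : W) : Fin m → ZMod 2), ?_, ?_⟩
  · intro c c' hcc
    rw [Fintype.linearIndependent_iff] at hli
    have h2 := hli (fun j => c j - c' j) (by
      simp only [sub_smul, sum_sub_distrib]
      exact sub_eq_zero.2 hcc)
    funext j
    exact sub_eq_zero.1 (h2 j)
  · intro c
    have hmem : (∑ j, c j • ((B (Fin.castLE hd j) : W) : Fin m → ZMod 2)) ∈ W :=
      Submodule.sum_mem _ (fun j _ => Submodule.smul_mem _ _ (Submodule.coe_mem _))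
    obtain ⟨x, hx, y, hy, z, hz, w, hw, h⟩ := hW hmem
    rw [mem_image] at hx hy hz hw
    obtain ⟨i, -, rfl⟩ := hx
    obtain ⟨j, -, rfl⟩ := hy
    obtain ⟨k, -, rfl⟩ := hz
    obtain ⟨l, -, rfl⟩ := hw
    rw [h]
    exact fourRep a i j k l

/-- The discrete form: if `α ≤ 2^(ν-m)` and the parameters are admissible, then `k + d ≥ m + 1`. -/
theorem discrete (α : ℝ) (k m ν d : ℕ) (hk : HasBound α k) (hα : α * 2 ^ m ≤ 2 ^ ν)
    (hm : 2 ≤ m) (hA : (8 * m + 1) ^ 4 < 2 ^ d)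
    (hB : 3 * d + 8 * ν + 9 ≤ 2 * m) (hC : 2 * ν + 1 ≤ m) : m + 1 ≤ k + d := by
  classical
  by_contra hcon
  obtain ⟨a, hinj, hnb⟩ := exists_good m ν d hm hA hB hC
  obtain ⟨W, hW, hsub⟩ := hk m (by omega) (univ.image a) (by
    rw [card_image_of_injective _ hinj, card_univ, Fintype.card_fin]
    push_cast
    exact hα)
  exact hnb (bad_of_subspace a W (by omega) hsub)

/-- For every `α ∈ (0,1/2]`, every `k` with the property defining `f(α)` satisfies
`k ≥ (4/3) log₂(1/α) - 6 log₂ log₂(1/α) - 200`. -/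
theorem result : ∀ α : ℝ, 0 < α → α ≤ 1 / 2 → ∀ k : ℕ, HasBound α k →
    (4 / 3) * Real.logb 2 (1 / α) - 6 * Real.logb 2 (Real.logb 2 (1 / α)) - 200 ≤ (k : ℝ) := by
  intro α hα0 hα1 k hk
  set L := Real.logb 2 (1 / α) with hL
  have hk0 : (0 : ℝ) ≤ (k : ℝ) := Nat.cast_nonneg k
  have hinv : (2 : ℝ) ≤ 1 / α := by
    rw [le_div_iff₀ hα0]; linarith
  have hL1 : 1 ≤ L := by
    rw [hL, Real.le_logb_iff_rpow_le (by norm_num) (by linarith)]
    simpa using hinv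
  have hLL : 0 ≤ Real.logb 2 L := Real.logb_nonneg (by norm_num) hL1
  by_cases hsmall : L < 129
  · linarith
  push Not at hsmall
  set l := ⌊L⌋₊ with hl
  have hlL : (l : ℝ) ≤ L := Nat.floor_le (by linarith)
  have hLl : L < (l : ℝ) + 1 := Nat.lt_floor_add_one L
  have hl128 : (128 : ℝ) ≤ (l : ℝ) := by
    have : 128 ≤ l := by
      rw [hl]
      apply Nat.le_floor
      push_cast
      linarith
    exact_mod_cast this
  have hl128' : 128 ≤ l := by exact_mod_cast hl128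
  have hlpos : (0 : ℝ) < (l : ℝ) := by linarith
  set d := Nat.log 2 ((12 * l) ^ 4) + 1 with hd
  have hdlt : (12 * l) ^ 4 < 2 ^ d := Nat.lt_pow_succ_log_self (by norm_num) _
  -- upper bound for `d`
  have hlog2 : (0.69 : ℝ) ≤ Real.log 2 := by
    have := Real.log_two_gt_d9
    linarith
  have hlog12 : Real.logb 2 12 ≤ 18 / 5 := by
    rw [Real.logb_le_iff_le_rpow (by norm_num) (by norm_num)]
    have h1 : (12 : ℝ) = ((12 : ℝ) ^ (5 : ℕ)) ^ ((1 : ℝ) / 5) := by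
      rw [← Real.rpow_natCast, ← Real.rpow_mul (by norm_num)]
      norm_num
    have h2 : (2 : ℝ) ^ ((18 : ℝ) / 5) = ((2 : ℝ) ^ (18 : ℕ)) ^ ((1 : ℝ) / 5) := by
      rw [← Real.rpow_natCast, ← Real.rpow_mul (by norm_num)]
      norm_num
    rw [h2]
    calc (12 : ℝ) = ((12 : ℝ) ^ (5 : ℕ)) ^ ((1 : ℝ) / 5) := h1
      _ ≤ ((2 : ℝ) ^ (18 : ℕ)) ^ ((1 : ℝ) / 5) :=
        Real.rpow_le_rpow (by norm_num) (by norm_num) (by norm_num)
  have hdle : (d : ℝ) ≤ 4 * Real.logb 2 (l : ℝ) + 15.4 := by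
    have h1 : ((2 : ℝ) ^ (Nat.log 2 ((12 * l) ^ 4))) ≤ (((12 * l) ^ 4 : ℕ) : ℝ) := by
      have := Nat.pow_log_le_self 2 (x := (12 * l) ^ 4) (by positivity)
      exact_mod_cast this
    have h2 : (Nat.log 2 ((12 * l) ^ 4) : ℝ) ≤ Real.logb 2 ((((12 * l) ^ 4 : ℕ) : ℝ)) := by
      rw [Real.le_logb_iff_rpow_le (by norm_num) (by positivity), Real.rpow_natCast]
      exact h1
    have h3 : Real.logb 2 ((((12 * l) ^ 4 : ℕ) : ℝ)) =
        4 * (Real.logb 2 12 + Real.logb 2 (l : ℝ)) := by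
      push_cast
      rw [← Real.rpow_natCast, Real.logb_rpow_eq_mul_logb_of_pos (by positivity),
        Real.logb_mul (by norm_num) (by positivity)]
      norm_num
    have h4 : (d : ℝ) = (Nat.log 2 ((12 * l) ^ 4) : ℝ) + 1 := by
      rw [hd]; push_cast; ring
    rw [h4]
    rw [h3] at h2
    linarith
  have hlogl : Real.logb 2 (l : ℝ) ≤ 7 + ((l : ℝ) - 128) / 88 := by
    have h1 : Real.logb 2 (l : ℝ) = 7 + Real.logb 2 ((l : ℝ) / 128) := by
      rw [Real.logb_div (by positivity) (by norm_num)]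
      have : Real.logb 2 (128 : ℝ) = 7 := by
        rw [show (128 : ℝ) = 2 ^ (7 : ℕ) by norm_num, ← Real.rpow_natCast, Real.logb_rpow]
        · norm_num
        · norm_num
        · norm_num
      rw [this]; ring
    have h2 : Real.log ((l : ℝ) / 128) ≤ (l : ℝ) / 128 - 1 :=
      Real.log_le_sub_one_of_pos (by positivity)
    have h3 : Real.logb 2 ((l : ℝ) / 128) ≤ ((l : ℝ) - 128) / 88 := by
      rw [Real.logb, div_le_iff₀ (by linarith)]
      have h5 : (0 : ℝ) ≤ ((l : ℝ) - 128) / 88 := by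
        apply div_nonneg <;> linarith
      nlinarith
    linarith
  have hd2 : 3 * (d : ℝ) + 14 ≤ 2 * (l : ℝ) := by linarith
  have hd2' : 3 * d + 14 ≤ 2 * l := by exact_mod_cast hd2
  -- choice of `m`, `ν`
  obtain ⟨m, hm1, hm2⟩ : ∃ m : ℕ, 6 * m + 3 * d + 9 ≤ 8 * l ∧ 8 * l < 6 * m + 3 * d + 15 :=
    ⟨(8 * l - 3 * d - 9) / 6, by omega, by omega⟩
  have hlm : l ≤ m := by omega
  obtain ⟨ν, hν⟩ : ∃ ν, m = l + ν := ⟨m - l, by omega⟩
  have hα2 : α * 2 ^ m ≤ 2 ^ ν := by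
    have h1 : (2 : ℝ) ^ l ≤ 1 / α := by
      have h2 : (2 : ℝ) ^ (l : ℝ) ≤ 1 / α := by
        rw [← Real.le_logb_iff_rpow_le (by norm_num) (by linarith)]
        exact hlL
      rwa [Real.rpow_natCast] at h2
    have h3 : α * 2 ^ l ≤ 1 := by
      rw [le_div_iff₀ hα0] at h1
      linarith
    rw [hν, pow_add, ← mul_assoc]
    have h4 : (0 : ℝ) ≤ 2 ^ ν := by positivity
    nlinarith
  have hfin := discrete α k m ν d hk hα2 (by omega)
    (lt_of_le_of_lt (Nat.pow_le_pow_left (by omega) 4) hdlt) (by omega) (by omega)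
  have hfinR : (m : ℝ) + 1 ≤ (k : ℝ) + d := by exact_mod_cast hfin
  have hm2R : 8 * (l : ℝ) < 6 * (m : ℝ) + 3 * d + 15 := by exact_mod_cast hm2
  have hmono : Real.logb 2 (l : ℝ) ≤ Real.logb 2 L :=
    Real.logb_le_logb_of_le (by norm_num) hlpos hlL
  linarith

end Pool.Agent.Results.MP_68cffc_co.FourThirds
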